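import Pool.Agent.Helper23.MC.Goals4

/-! # MC: averaging over classes -/

set_option autoImplicit false

open Finset

open scoped Classical

namespace Pool.Agent.Helper99.MC

open Pool.Agent.Helper23.MC

/-- one prime: averaging over the classes of `A` -/
theorem avg_one (l : ℕ) (hl : l.Prime) (A : Finset ℕ) (hA : A ⊆ range l) (hne : A.Nonempty)
    (Z : Finset ℕ) (w : ℕ → ℝ) :
    ∃ a ∈ A, ∑ h ∈ Z.filter (fun h => ¬ l ∣ a + h), w h
      ≤ ∑ h ∈ Z, w h * (1 - (if (l - h % l) % l ∈ A then 1 / (A.card : ℝ) else 0)) := by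
  have hc : (0 : ℝ) < A.card := by exact_mod_cast hne.card_pos
  have hl0 : 0 < l := hl.pos
  -- the divisibility
  have key : ∀ h : ℕ, ∀ a ∈ A, l ∣ a + h ↔ a = (l - h % l) % l := by
    intro h a ha
    have hal : a < l := mem_range.1 (hA ha)
    have hh : h % l < l := Nat.mod_lt _ hl0
    have h1 : l ∣ a + h ↔ l ∣ a + h % l := by
      have : a + h = a + h % l + l * (h / l) := by
        have := Nat.mod_add_div h l
        omega
      rw [this]
      exact (Nat.dvd_add_left (Dvd.intro _ rfl))
    rw [h1]
    rcases Nat.eq_zero_or_pos (h % l) with h0 | h0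
    · rw [h0, Nat.sub_zero, Nat.mod_self, add_zero]
      constructor
      · intro hd
        exact Nat.eq_zero_of_dvd_of_lt hd hal
      · rintro rfl
        exact dvd_zero _
    · rw [Nat.mod_eq_of_lt (by omega : l - h % l < l)]
      constructor
      · rintro ⟨k, hk⟩
        have hk1 : k < 2 := by
          by_contra hcon
          have : l * 2 ≤ l * k := Nat.mul_le_mul_left _ (by omega)
          omega
        have hk0 : 0 < k := by
          rcases Nat.eq_zero_or_pos k with rfl | hk0
          · omega
          · exact hk0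
        have : k = 1 := by omega
        subst this
        omega
      · intro he
        exact ⟨1, by omega⟩
  have hsum : ∑ a ∈ A, ∑ h ∈ Z.filter (fun h => ¬ l ∣ a + h), w h
      = ∑ a ∈ A, ∑ h ∈ Z, w h * (1 - (if (l - h % l) % l ∈ A then 1 / (A.card : ℝ) else 0)) := by
    rw [sum_congr rfl (fun a _ => sum_filter _ _), sum_comm, sum_comm (s := A)]
    refine sum_congr rfl (fun h _ => ?_)
    rw [sum_const, nsmul_eq_mul]
    have h2 : ∑ a ∈ A, (if ¬ l ∣ a + h then w h else 0)
        = ∑ a ∈ A, (w h - if a = (l - h % l) % l then w h else 0) := by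
      refine sum_congr rfl (fun a ha => ?_)
      by_cases hd : l ∣ a + h
      · rw [if_neg (not_not.2 hd), if_pos ((key h a ha).1 hd), sub_self]
      · rw [if_pos hd, if_neg (fun he => hd ((key h a ha).2 he)), sub_zero]
    rw [h2, sum_sub_distrib, sum_const, nsmul_eq_mul, sum_ite_eq']
    split_ifs with hm
    · field_simp
    · ring
  obtain ⟨a, ha, h3⟩ := exists_le_of_sum_le hne hsum.le
  exact ⟨a, ha, h3⟩

theorem avg : StmtAVG := by
  intro L
  induction L using Finset.induction_on with
  | empty =>
    intro Z A _ _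
    refine ⟨0, by simp, by simp, ?_⟩
    simp only [prod_empty, sum_const, nsmul_eq_mul, mul_one]
    exact_mod_cast card_filter_le _ _
  | insert l L hl ih =>
    intro Z A hp hA
    have hlp : l.Prime := hp l (mem_insert_self _ _)
    obtain ⟨a, ha, h1⟩ := avg_one l hlp (A l) (hA l (mem_insert_self _ _)).1
      (hA l (mem_insert_self _ _)).2 Z
      (fun h => ∏ l ∈ L, (1 - (if (l - h % l) % l ∈ A l then 1 / ((A l).card : ℝ) else 0)))
    obtain ⟨b, hb, hbA, h2⟩ := ih (Z.filter (fun h => ¬ l ∣ a + h)) A
      (fun q hq => hp q (mem_insert_of_mem hq)) (fun q hq => hA q (mem_insert_of_mem hq))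
    have hco : Nat.Coprime l (∏ q ∈ L, q) := by
      refine Nat.Coprime.prod_right (fun q hq => ?_)
      exact (Nat.coprime_primes hlp (hp q (mem_insert_of_mem hq))).2
        (fun he => hl (he ▸ hq))
    have hP0 : ∏ q ∈ L, q ≠ 0 :=
      prod_ne_zero_iff.2 (fun q hq => (hp q (mem_insert_of_mem hq)).ne_zero)
    have hal : a < l := mem_range.1 ((hA l (mem_insert_self _ _)).1 ha)
    set c := Nat.chineseRemainder hco a b with hc
    have hc1 : (c : ℕ) ≡ a [MOD l] := c.2.1
    have hc2 : (c : ℕ) ≡ b [MOD ∏ q ∈ L, q] := c.2.2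
    have hlt : (c : ℕ) < l * ∏ q ∈ L, q := by
      rw [hc]
      exact Nat.chineseRemainder_lt_mul hco a b hlp.ne_zero hP0
    refine ⟨c, by rwa [prod_insert hl], ?_, ?_⟩
    · intro q hq
      rcases mem_insert.1 hq with rfl | hq'
      · have : (c : ℕ) % q = a := by
          rw [hc1]
          exact Nat.mod_eq_of_lt hal
        rw [this]
        exact ha
      · have : (c : ℕ) % q = b % q := hc2.of_dvd (dvd_prod_of_mem _ hq')
        rw [this]
        exact hbA q hq'
    · have hset : Z.filter (fun h => Nat.Coprime ((c : ℕ) + h) (∏ q ∈ insert l L, q))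
          = (Z.filter (fun h => ¬ l ∣ a + h)).filter (fun h => Nat.Coprime (b + h) (∏ q ∈ L, q)) := by
        rw [filter_filter]
        refine filter_congr (fun h _ => ?_)
        rw [prod_insert hl, Nat.coprime_mul_iff_right]
        have e1 : Nat.Coprime ((c : ℕ) + h) l ↔ ¬ l ∣ a + h := by
          rw [Nat.coprime_comm, hlp.coprime_iff_not_dvd]
          have : (c : ℕ) + h ≡ a + h [MOD l] := Nat.ModEq.add_right h hc1
          rw [this.dvd_iff (dvd_refl l)]
        have e2 : Nat.Coprime ((c : ℕ) + h) (∏ q ∈ L, q) ↔ Nat.Coprime (b + h) (∏ q ∈ L, q) := by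
          have : (c : ℕ) + h ≡ b + h [MOD ∏ q ∈ L, q] := Nat.ModEq.add_right h hc2
          unfold Nat.Coprime
          rw [this.gcd_eq]
        rw [e1, e2]
      rw [hset]
      refine h2.trans (h1.trans (le_of_eq ?_))
      refine sum_congr rfl (fun h _ => ?_)
      rw [prod_insert hl, mul_comm]

end Pool.Agent.Helper99.MC
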